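import Mathlib

namespace Pool.Agent.Results.MP_9bc523_co.Counter

open Matrix

/-- `x` is a solution of `A x = c` in positive integers with pairwise distinct entries. -/
def IsSol {l k : ℕ} (A : Matrix (Fin l) (Fin k) ℤ) (c : Fin l → ℤ) (x : Fin k → ℕ) : Prop :=
  Function.Injective x ∧ (∀ j, 1 ≤ x j) ∧ A *ᵥ (fun j => (x j : ℤ)) = c

lemma sol (t : ℕ) (x : Fin 2 → ℕ) : IsSol !![1, -2] ![(t : ℤ)] x ↔ 1 ≤ x 1 ∧ x 0 = 2 * x 1 + t := by
  simp only [IsSol, funext_iff, Fin.forall_fin_one, Fin.forall_fin_two, Function.Injective]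
  simp [mulVec, dotProduct, Fin.sum_univ_two]
  omega

lemma key (y : ℕ) (hy : 1 ≤ y) (h : Nat.log 2 (2 * y + 2) % 2 = Nat.log 2 y % 2) :
    y + 1 = 2 ^ (Nat.log 2 y + 1) := by
  rw [show 2 * y + 2 = (y + 1) * 2 by ring, Nat.log_mul_base (by norm_num) (by omega)] at h
  have h1 := Nat.lt_pow_succ_log_self (b := 2) (by norm_num) y
  by_contra hne
  have : Nat.log 2 (y + 1) = Nat.log 2 y := Nat.log_eq_of_pow_le_of_lt_pow
    ((Nat.pow_log_le_self 2 (by omega)).trans y.le_succ) (lt_of_le_of_ne h1 hne)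
  omega

theorem result : ∃ (r : ℕ) (l k : Fin r → ℕ) (A : ∀ i, Matrix (Fin (l i)) (Fin (k i)) ℤ)
    (c : ∀ i, Fin (l i) → ℤ), 0 < r ∧ (∀ i, ((A i).map (Int.cast : ℤ → ℚ)).rank = l i) ∧
    (∀ i, ∃ x, IsSol (A i) (c i) x) ∧ (∀ i, ∃ x, IsSol (A i) 0 x) ∧
    (∀ χ : ℕ → Fin r, ∃ i x, IsSol (A i) (c i) x ∧ ∀ j, χ (x j) = i) ∧
    ∀ δ : ℝ, 0 < δ → ∀ n₀ : ℕ, ∃ n > n₀, ∃ χ : ℕ → Fin r, ∀ i,
      (({x | IsSol (A i) (c i) x ∧ ∀ j, x j ≤ n ∧ χ (x j) = i}.ncard : ℕ) : ℝ) <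
        δ * (n : ℝ) ^ (k i - l i) := by
  refine ⟨2, fun _ => 1, fun _ => 2, fun _ => !![1, -2], fun i => ![((2 * i.1 : ℕ) : ℤ)],
    by norm_num, fun _ => ?_, fun i => ⟨![2 + 2 * i.1, 1], (sol _ _).2 (by simp)⟩,
    fun i => ⟨![2, 1], ?_⟩, fun χ => ?_, fun δ hδ n₀ => ?_⟩
  · refine le_antisymm (rank_le_height _) ?_
    have := rank_mul_le_left ((!![1, -2] : Matrix (Fin 1) (Fin 2) ℤ).map (Int.cast : ℤ → ℚ))
      (!![1; 0] : Matrix (Fin 2) (Fin 1) ℚ)
    have e : (!![1, -2] : Matrix (Fin 1) (Fin 2) ℤ).map (Int.cast : ℤ → ℚ) *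
        (!![1; 0] : Matrix (Fin 2) (Fin 1) ℚ) = 1 := by
      ext i j; fin_cases i; fin_cases j; simp [Matrix.mul_apply]
    rwa [e, rank_one] at this
  · convert (sol 0 ![2, 1]).2 (by simp)
    ext j; fin_cases j; simp
  · by_contra hh
    have H : ∀ (i : Fin 2) (y : ℕ), 1 ≤ y → χ (2 * y + 2 * i.1) = i → χ y ≠ i := fun i y hy h h' =>
      hh ⟨i, ![2 * y + 2 * i.1, y], (sol _ _).2 (by simpa using hy), by simp [Fin.forall_fin_two, *]⟩
    have a := fun y hy => H 0 y hy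
    have b := fun y hy => H 1 y hy
    have := a 1; have := a 2; have := b 1; have := b 2; have := a 3; have := b 3; have := a 4
    have := b 4; have := a 5; have := b 5; have := a 6
    simp only [Fin.ext_iff, Ne] at *
    norm_num at *
    have := (χ 1).2; have := (χ 2).2; have := (χ 3).2; have := (χ 4).2; have := (χ 5).2
    have := (χ 6).2; have := (χ 8).2; have := (χ 10).2; have := (χ 12).2
    omega
  · obtain ⟨m, hm⟩ := exists_nat_gt (max (1 / δ) n₀)
    have h1 : 2 * m < 2 ^ (2 * m) := Nat.lt_two_pow_self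
    have h2 : m * (2 * m + 1) ≤ 2 ^ (2 * m + 1) := by
      have := Nat.lt_two_pow_self (n := m)
      rw [pow_succ, mul_comm 2 m, pow_mul]; nlinarith
    have h3 : n₀ < m := by exact_mod_cast (le_max_right _ _).trans_lt hm
    refine ⟨2 ^ (2 * m + 1), by rw [pow_succ]; omega,
      fun x => ⟨Nat.log 2 x % 2, Nat.mod_lt _ two_pos⟩, fun i => ?_⟩
    have sub : {x | IsSol !![1, -2] ![((2 * i.1 : ℕ) : ℤ)] x ∧ ∀ j, x j ≤ 2 ^ (2 * m + 1) ∧
        (⟨Nat.log 2 (x j) % 2, Nat.mod_lt _ two_pos⟩ : Fin 2) = i} ⊆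
        ((Finset.range (2 * m + 1)).image fun t => ![2 ^ (t + 1), 2 ^ t - 1] : Finset _) := by
      rintro x ⟨h, h'⟩
      obtain ⟨a, b⟩ := (sol _ _).1 h
      have e := congrArg Fin.val ((h' 0).2.trans (h' 1).2.symm)
      have le := (h' 0).1
      simp only [b] at e le
      fin_cases i
      · simp only [mul_zero, add_zero] at e
        rw [mul_comm, Nat.log_mul_base (by norm_num) (by omega)] at e
        omega
      · have k := key _ a e
        simp only [Finset.coe_image, Finset.coe_range, Set.mem_image, Set.mem_Iio]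
        refine ⟨Nat.log 2 (x 1) + 1, ?_, ?_⟩
        · rw [← Nat.pow_lt_pow_iff_right (a := 2) (by norm_num)]
          simp only at le; omega
        · ext j; fin_cases j <;> simp [pow_succ 2 (_ + 1), ← k, b]; ring
    have := (Set.ncard_le_ncard sub (Finset.finite_toSet _)).trans
      ((Set.ncard_coe_finset _).le.trans (Finset.card_image_le.trans (Finset.card_range _).le))
    have h4 : 1 < δ * m := by
      have := (le_max_left _ _).trans_lt hm
      rwa [div_lt_iff₀' hδ] at this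
    refine (Nat.cast_le.2 this).trans_lt ?_
    rify at h2
    simp only [Nat.add_one_sub_one, pow_one]
    push_cast
    nlinarith [(Nat.cast_nonneg m : (0 : ℝ) ≤ m), mul_le_mul_of_nonneg_left h2 hδ.le]

end Pool.Agent.Results.MP_9bc523_co.Counter
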